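import Pool.Agent.H164R4.Lolli

set_option autoImplicit false
set_option linter.unusedSectionVars false

/-!
The contracted graph: the vertices off the cycle are contracted to one vertex per component.
-/

namespace Pool.Agent.H164R4

open Finset

variable {V : Type} [Fintype V] [DecidableEq V]

/-- u has a neighbour in the component Q of the graph induced by out -/
def Touch (G : SimpleGraph V) (out : Set V) (u : V) (Q : (G.induce out).ConnectedComponent) : Prop :=
  ∃ v : out, v ∈ Q.supp ∧ G.Adj u v

/-- number of attachments -/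
noncomputable def att (G : SimpleGraph V) (out : Set V) (Q : (G.induce out).ConnectedComponent) : ℕ :=
  Nat.card {u : V // u ∉ out ∧ Touch G out u Q}

/-- adjacency of the contracted graph -/
def CAdj (G : SimpleGraph V) (out : Set V) (pt : (G.induce out).ConnectedComponent → V) :
    V ⊕ (G.induce out).ConnectedComponent → V ⊕ (G.induce out).ConnectedComponent → Prop
  | .inl u, .inl v => u ∉ out ∧ v ∉ out ∧ G.Adj u v
  | .inl u, .inr Q => u ∉ out ∧ Touch G out u Q ∧ ¬ (u = pt Q ∧ Odd (att G out Q))
  | .inr Q, .inl u => u ∉ out ∧ Touch G out u Q ∧ ¬ (u = pt Q ∧ Odd (att G out Q))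
  | .inr _, .inr _ => False

/-- the contracted graph -/
def CG (G : SimpleGraph V) (out : Set V) (pt : (G.induce out).ConnectedComponent → V) :
    SimpleGraph (V ⊕ (G.induce out).ConnectedComponent) where
  Adj := CAdj G out pt
  symm := ⟨by
    rintro (u | Q) (v | Q') h
    · exact ⟨h.2.1, h.1, h.2.2.symm⟩
    · exact h
    · exact h
    · exact h⟩
  loopless := ⟨by
    rintro (u | Q) h
    · exact G.loopless.irrefl _ h.2.2
    · exact h⟩

theorem touch_mk (G : SimpleGraph V) (out : Set V) (u : V) (v : out)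
    (h : G.Adj u v) : Touch G out u ((G.induce out).connectedComponentMk v) :=
  ⟨v, rfl, h⟩

theorem unique_out (G : SimpleGraph V) (out : Set V) (u : V)
    (h3 : Nat.card {v // G.Adj u v} = 3)
    (h2 : 2 ≤ Nat.card {v // G.Adj u v ∧ v ∉ out}) (v1 v2 : V) (hv1 : v1 ∈ out) (hv2 : v2 ∈ out)
    (a1 : G.Adj u v1) (a2 : G.Adj u v2) : v1 = v2 := by
  classical
  by_contra hne
  rw [Nat.card_eq_fintype_card, Fintype.card_subtype] at h2 h3
  have h4 : (univ.filter (fun v => G.Adj u v ∧ v ∉ out)) ∪ {v1, v2} ⊆
      univ.filter (fun v => G.Adj u v) := by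
    intro w hw
    simp only [mem_union, mem_filter, mem_univ, true_and, mem_insert, mem_singleton] at hw ⊢
    rcases hw with hw | hw | hw
    · exact hw.1
    · rw [hw]; exact a1
    · rw [hw]; exact a2
  have h5 := card_le_card h4
  rw [card_union_of_disjoint, card_pair hne] at h5
  · omega
  · rw [disjoint_left]
    intro w hw hw'
    simp only [mem_filter, mem_univ, true_and, mem_insert, mem_singleton] at hw hw'
    rcases hw' with hw' | hw'
    · exact hw.2 (hw' ▸ hv1)
    · exact hw.2 (hw' ▸ hv2)

theorem deg_inl (G : SimpleGraph V) (out : Set V) (pt : (G.induce out).ConnectedComponent → V)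
    (u : V) (hu : u ∉ out) (hux : ∀ Q, u ≠ pt Q)
    (h3 : Nat.card {v // G.Adj u v} = 3)
    (h2 : 2 ≤ Nat.card {v // G.Adj u v ∧ v ∉ out}) :
    Nat.card {w // (CG G out pt).Adj (.inl u) w} = 3 := by
  classical
  rw [← h3]
  symm
  let f : {v // G.Adj u v} → {w // (CG G out pt).Adj (.inl u) w} := fun v =>
    if hv : v.1 ∈ out then
      ⟨.inr ((G.induce out).connectedComponentMk ⟨v.1, hv⟩),
        ⟨hu, touch_mk G out u ⟨v.1, hv⟩ v.2, fun h => hux _ h.1⟩⟩
    else ⟨.inl v.1, ⟨hu, hv, v.2⟩⟩
  have hf1 : ∀ v (hv : v.1 ∈ out), (f v).1 = .inr ((G.induce out).connectedComponentMk ⟨v.1, hv⟩) := by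
    intro v hv
    simp only [f, dif_pos hv]
  have hf2 : ∀ v, v.1 ∉ out → (f v).1 = .inl v.1 := by
    intro v hv
    simp only [f, dif_neg hv]
  apply Nat.card_congr (Equiv.ofBijective f ⟨?_, ?_⟩)
  · intro v w hvw
    have hvw' := congrArg Subtype.val hvw
    by_cases hv : v.1 ∈ out
    · by_cases hw : w.1 ∈ out
      · exact Subtype.ext (unique_out G out u h3 h2 _ _ hv hw v.2 w.2)
      · rw [hf1 v hv, hf2 w hw] at hvw'
        exact absurd hvw' (by simp)
    · by_cases hw : w.1 ∈ out
      · rw [hf2 v hv, hf1 w hw] at hvw'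
        exact absurd hvw' (by simp)
      · rw [hf2 v hv, hf2 w hw] at hvw'
        exact Subtype.ext (by simpa using hvw')
  · rintro ⟨w | Q, hw⟩
    · refine ⟨⟨w, hw.2.2⟩, ?_⟩
      apply Subtype.ext
      rw [hf2 _ hw.2.1]
    · obtain ⟨v, hvQ, hv⟩ := hw.2.1
      refine ⟨⟨v.1, hv⟩, ?_⟩
      apply Subtype.ext
      rw [hf1 _ v.2]
      simp only [Sum.inr.injEq]
      exact hvQ

theorem deg_inr (G : SimpleGraph V) (out : Set V) (pt : (G.induce out).ConnectedComponent → V)
    (Q : (G.induce out).ConnectedComponent) (hx : pt Q ∉ out)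
    (hQ : Odd (att G out Q) → Touch G out (pt Q) Q) :
    Even (Nat.card {w // (CG G out pt).Adj (.inr Q) w}) := by
  classical
  have h1 : Nat.card {w // (CG G out pt).Adj (.inr Q) w} =
      Nat.card {u : V // u ∉ out ∧ Touch G out u Q ∧ ¬ (u = pt Q ∧ Odd (att G out Q))} := by
    let g : {u : V // u ∉ out ∧ Touch G out u Q ∧ ¬ (u = pt Q ∧ Odd (att G out Q))} →
        {w // (CG G out pt).Adj (.inr Q) w} := fun u => ⟨.inl u.1, u.2⟩
    symm
    apply Nat.card_congr (Equiv.ofBijective g ⟨?_, ?_⟩)
    · intro u v huv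
      have := congrArg Subtype.val huv
      simp only [g, Sum.inl.injEq] at this
      exact Subtype.ext this
    · rintro ⟨w | Q', hw⟩
      · exact ⟨⟨w, hw⟩, rfl⟩
      · exact absurd hw (fun h => h)
  rw [h1]
  by_cases hodd : Odd (att G out Q)
  · have h2 : att G out Q =
        Nat.card {u : V // u ∉ out ∧ Touch G out u Q ∧ ¬ (u = pt Q ∧ Odd (att G out Q))} + 1 := by
      have h3 : univ.filter (fun u => u ∉ out ∧ Touch G out u Q) =
          insert (pt Q) (univ.filter (fun u => u ∉ out ∧ Touch G out u Q ∧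
            ¬ (u = pt Q ∧ Odd (att G out Q)))) := by
        ext u
        simp only [mem_filter, mem_univ, true_and, mem_insert]
        constructor
        · intro h
          by_cases hux : u = pt Q
          · left; exact hux
          · right; exact ⟨h.1, h.2, fun h' => hux h'.1⟩
        · rintro (h | h)
          · rw [h]; exact ⟨hx, hQ hodd⟩
          · exact ⟨h.1, h.2.1⟩
      have h6 : att G out Q = (univ.filter (fun u => u ∉ out ∧ Touch G out u Q)).card := by
        unfold att
        rw [Nat.card_eq_fintype_card, Fintype.card_subtype]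
      rw [Nat.card_eq_fintype_card, Fintype.card_subtype]
      refine h6.trans ?_
      refine (congrArg Finset.card h3).trans ?_
      refine card_insert_of_notMem ?_
      intro hmem
      rw [mem_filter] at hmem
      exact hmem.2.2.2 ⟨rfl, hodd⟩
    have h4 := hodd
    rw [h2] at h4
    rcases Nat.even_or_odd (Nat.card {u : V // u ∉ out ∧ Touch G out u Q ∧
      ¬ (u = pt Q ∧ Odd (att G out Q))}) with h5 | h5
    · exact h5
    · exact absurd (h5.add_one) (Nat.not_even_iff_odd.2 h4)
  · have h2 : Nat.card {u : V // u ∉ out ∧ Touch G out u Q ∧ ¬ (u = pt Q ∧ Odd (att G out Q))} =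
        att G out Q := by
      unfold att
      apply Nat.card_congr
      apply Equiv.subtypeEquivRight
      intro u
      constructor
      · exact fun h => ⟨h.1, h.2.1⟩
      · exact fun h => ⟨h.1, h.2, fun h' => hodd h'.2⟩
    rw [h2]
    exact Nat.not_odd_iff_even.1 hodd

theorem deg_out (G : SimpleGraph V) (out : Set V) (pt : (G.induce out).ConnectedComponent → V)
    (u : V) (hu : u ∈ out) :
    Nat.card {w // (CG G out pt).Adj (.inl u) w} = 0 := by
  have : IsEmpty {w // (CG G out pt).Adj (.inl u) w} := by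
    constructor
    rintro ⟨w | Q, hw⟩
    · exact hw.1 hu
    · exact hw.1 hu
  exact Nat.card_of_isEmpty

end Pool.Agent.H164R4
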