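import Pool.Agent.H164R4.Lift

set_option autoImplicit false
set_option linter.unusedSectionVars false

/-!
The extension theorem.
-/

namespace Pool.Agent.H164R4

open Finset

variable {V : Type} [Fintype V] [DecidableEq V]

theorem open_base (G : SimpleGraph V) {x : V} (c : G.Walk x x) (hc : c.IsCycle) (y : V)
    (hxy : s(x, y) ∈ c.edges) :
    ∃ p : G.Walk y x, p.IsPath ∧ s(x, y) ∉ p.edges ∧
      (∀ e, e ∈ c.edges ↔ e = s(x, y) ∨ e ∈ p.edges) ∧
      (∀ v, v ∈ c.support ↔ v ∈ p.support) := by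
  cases c with
  | nil => simp at hxy
  | cons h p =>
    rename_i b
    by_cases hb : y = b
    · subst hb
      rw [SimpleGraph.Walk.cons_isCycle_iff] at hc
      refine ⟨p, hc.1, hc.2, ?_, ?_⟩
      · intro e
        rw [SimpleGraph.Walk.edges_cons, List.mem_cons]
      · intro v
        rw [SimpleGraph.Walk.support_cons, List.mem_cons]
        constructor
        · rintro (rfl | h)
          · exact p.end_mem_support
          · exact h
        · exact Or.inr
    · have hc' := (SimpleGraph.Walk.cons_isCycle_iff p h).1 hc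
      have hyp : s(x, y) ∈ p.reverse.edges := by
        rw [SimpleGraph.Walk.edges_cons, List.mem_cons] at hxy
        rcases hxy with hxy | hxy
        · exfalso
          rw [Sym2.eq_iff] at hxy
          rcases hxy with ⟨-, h1⟩ | ⟨h1, h2⟩
          · exact hb h1
          · rw [h1] at h
            exact G.loopless.irrefl _ h
        · rw [SimpleGraph.Walk.edges_reverse, List.mem_reverse]
          exact hxy
      obtain ⟨h2, p2, hp2⟩ := path_first G p.reverse hc'.1.reverse y hyp
      have hrev : (SimpleGraph.Walk.cons h p).reverse.IsCycle := hc.reverse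
      have heq : (SimpleGraph.Walk.cons h p).reverse =
          SimpleGraph.Walk.cons h2 (p2.append (SimpleGraph.Walk.cons h.symm SimpleGraph.Walk.nil)) := by
        rw [SimpleGraph.Walk.reverse_cons, hp2, SimpleGraph.Walk.cons_append]
      rw [heq, SimpleGraph.Walk.cons_isCycle_iff] at hrev
      refine ⟨_, hrev.1, hrev.2, ?_, ?_⟩
      · intro e
        have h5 : e ∈ (SimpleGraph.Walk.cons h p).edges ↔ e ∈ (SimpleGraph.Walk.cons h p).reverse.edges := by
          rw [SimpleGraph.Walk.edges_reverse, List.mem_reverse]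
        rw [h5, heq, SimpleGraph.Walk.edges_cons, List.mem_cons]
      · intro v
        have h5 : v ∈ (SimpleGraph.Walk.cons h p).support ↔
            v ∈ (SimpleGraph.Walk.cons h p).reverse.support := by
          rw [SimpleGraph.Walk.support_reverse, List.mem_reverse]
        rw [h5, heq, SimpleGraph.Walk.support_cons, List.mem_cons]
        constructor
        · rintro (rfl | h)
          · exact SimpleGraph.Walk.end_mem_support _
          · exact h
        · exact Or.inr

theorem open_cycle (G : SimpleGraph V) {a : V} (c : G.Walk a a) (hc : c.IsCycle) (x y : V)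
    (hxy : s(x, y) ∈ c.edges) :
    ∃ p : G.Walk y x, p.IsPath ∧ s(x, y) ∉ p.edges ∧
      (∀ e, e ∈ c.edges ↔ e = s(x, y) ∨ e ∈ p.edges) ∧
      (∀ v, v ∈ c.support ↔ v ∈ p.support) := by
  have hx : x ∈ c.support := c.fst_mem_support_of_mem_edges hxy
  have he : ∀ e, e ∈ (c.rotate x hx).edges ↔ e ∈ c.edges := fun e => (c.rotate_edges x hx).mem_iff
  have hs : ∀ v, v ∈ (c.rotate x hx).support ↔ v ∈ c.support := by
    intro v
    exact SimpleGraph.Walk.mem_support_rotate_iff _ _ _
  obtain ⟨p, h1, h2, h3, h4⟩ := open_base G (c.rotate x hx) (hc.rotate hx) y ((he _).2 hxy)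
  exact ⟨p, h1, h2, fun e => (he e).symm.trans (h3 e), fun v => (hs v).symm.trans (h4 v)⟩

theorem two_nbrs (G : SimpleGraph V) {a : V} (c : G.Walk a a) (hc : c.IsCycle) (u : V)
    (hu : u ∈ c.support) : 2 ≤ Nat.card {v // G.Adj u v ∧ v ∈ c.support} := by
  classical
  have h1 := hc.ncard_neighborSet_toSubgraph_eq_two hu
  have h2 : (c.toSubgraph.neighborSet u).ncard ≤ {v | G.Adj u v ∧ v ∈ c.support}.ncard := by
    apply Set.ncard_le_ncard
    · intro v hv
      refine ⟨c.toSubgraph.adj_sub hv, ?_⟩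
      rw [← SimpleGraph.Walk.mem_verts_toSubgraph]
      exact c.toSubgraph.edge_vert (c.toSubgraph.adj_symm hv)
    · exact Set.toFinite _
  rw [h1] at h2
  rw [← Nat.card_coe_set_eq] at h2
  exact h2

theorem core (G : SimpleGraph V) (out : Set V) (x y : V) (p : G.Walk y x)
    (hp : p.IsPath) (hxyp : s(x, y) ∉ p.edges) (hout : ∀ v, v ∉ out ↔ v ∈ p.support) (hxy : x ≠ y)
    (h3 : ∀ u ∈ p.support, u ≠ x → u ≠ y → Nat.card {v // G.Adj u v} = 3)
    (h2 : ∀ u ∈ p.support, 2 ≤ Nat.card {v // G.Adj u v ∧ v ∉ out})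
    (hodd : ∀ Q, Odd (att G out Q) → Touch G out x Q ∨ Touch G out y Q) :
    ∃ q : G.Walk x y, q.IsPath ∧ s(y, x) ∉ q.edges ∧ (∀ v ∈ p.support, v ∈ q.support) ∧
      ∃ e ∈ q.edges, e ∉ p.edges := by
  classical
  have : Fintype (G.induce out).ConnectedComponent := Fintype.ofFinite _
  have hxo : x ∉ out := (hout x).2 p.end_mem_support
  have hyo : y ∉ out := (hout y).2 p.start_mem_support
  set pt : (G.induce out).ConnectedComponent → V := fun Q => if Touch G out x Q then x else y with hpt
  have hpto : ∀ Q, pt Q ∉ out := by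
    intro Q; rw [hpt]; simp only; split_ifs
    · exact hxo
    · exact hyo
  have hptt : ∀ Q, Odd (att G out Q) → Touch G out (pt Q) Q := by
    intro Q hQ; rw [hpt]; simp only; split_ifs with h
    · exact h
    · exact (hodd Q hQ).resolve_left h
  have hptx : ∀ Q, pt Q = x ∨ pt Q = y := by
    intro Q; rw [hpt]; simp only; split_ifs
    · exact Or.inl rfl
    · exact Or.inr rfl
  set S : Finset (V ⊕ (G.induce out).ConnectedComponent) :=
    univ.filter (fun w => ∃ u, w = Sum.inl u ∧ u ∉ out ∧ u ≠ x) with hS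
  have hSm : ∀ w, w ∈ S ↔ ∃ u, w = Sum.inl u ∧ u ∉ out ∧ u ≠ x := by
    intro w; rw [hS, mem_filter]; simp
  -- the reversed path
  obtain ⟨b, h', p2, hp2⟩ : ∃ (b : V) (h' : G.Adj x b) (p2 : G.Walk b y),
      p.reverse = SimpleGraph.Walk.cons h' p2 := by
    cases hr : p.reverse with
    | nil => exact absurd rfl hxy
    | cons h' p2 => exact ⟨_, h', p2, rfl⟩
  have hrp : (SimpleGraph.Walk.cons h' p2).IsPath := by rw [← hp2]; exact hp.reverse
  have hrs : ∀ v, v ∈ p.support ↔ v = x ∨ v ∈ p2.support := by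
    intro v
    have h5 : v ∈ p.support ↔ v ∈ p.reverse.support := by
      rw [SimpleGraph.Walk.support_reverse, List.mem_reverse]
    rw [h5, hp2, SimpleGraph.Walk.support_cons, List.mem_cons]
  have hre : ∀ e, e ∈ p.edges ↔ e ∈ p.reverse.edges := by
    intro e
    rw [SimpleGraph.Walk.edges_reverse, List.mem_reverse]
  have hrp2 := (SimpleGraph.Walk.cons_isPath_iff _ _).1 hrp
  have hby : b ≠ y := by
    intro h
    apply hxyp
    rw [hre, hp2, SimpleGraph.Walk.edges_cons, List.mem_cons]
    exact Or.inl (by rw [h])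
  have hbx : b ≠ x := fun h => h'.ne h.symm
  have hbo : b ∉ out := (hout b).2 ((hrs b).2 (Or.inr p2.start_mem_support))
  have hp2o : ∀ t ∈ p2.support, t ∉ out := fun t ht => (hout t).2 ((hrs t).2 (Or.inr ht))
  obtain ⟨T0, hT0⟩ : ∃ T0 : List (V ⊕ (G.induce out).ConnectedComponent),
      p2.support.map (Sum.inl : V → V ⊕ (G.induce out).ConnectedComponent) = Sum.inl b :: T0 := by
    cases p2 with
    | nil => exact ⟨[], by simp⟩
    | cons h p3 => exact ⟨_, by rw [SimpleGraph.Walk.support_cons, List.map_cons]⟩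
  have hcs := chain_support G out pt p2 hp2o
  have hgood : Good (CG G out pt) (Sum.inl x) (Sum.inl y) S (Sum.inl b :: T0) := by
    rw [← hT0]
    refine ⟨?_, hcs.1, hcs.2, ?_, ?_⟩
    · exact List.Nodup.map Sum.inl_injective hrp2.1.support_nodup
    · intro h
      rw [List.mem_map] at h
      obtain ⟨t, ht, ht'⟩ := h
      rw [Sum.inl.inj ht'] at ht
      exact hrp2.2 ht
    · intro s hs
      obtain ⟨u, rfl, hu1, hu2⟩ := (hSm s).1 hs
      rw [List.mem_map]
      exact ⟨u, ((hrs u).1 ((hout u).1 hu1)).resolve_left hu2, rfl⟩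
  obtain ⟨z1, T1, hg1, hz1, hne⟩ := second (CG G out pt) (Sum.inl x) (Sum.inl y) S
    (by
      intro v hv hvy
      obtain ⟨u, rfl, hu1, hu2⟩ := (hSm v).1 hv
      have hu3 : u ≠ y := fun h => hvy (by rw [h])
      have hup := (hout u).1 hu1
      rw [deg_inl G out pt u hu1 ?_ (h3 u hup hu2 hu3) (h2 u hup)]
      · decide
      · intro Q
        rcases hptx Q with h | h
        · rw [h]; exact hu2
        · rw [h]; exact hu3)
    (by
      rintro (u | Q) hv hvx hvy
      · have hu2 : u ≠ x := fun h => hvx (by rw [h])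
        have huo : u ∈ out := by
          by_contra h
          exact hv ((hSm _).2 ⟨u, rfl, h, hu2⟩)
        rw [deg_out G out pt u huo]
        exact Even.zero
      · exact deg_inr G out pt Q (hpto Q) (hptt Q))
    ⟨Sum.inl b, (hSm _).2 ⟨b, rfl, hbo, hbx⟩, fun h => hby (Sum.inl.inj h)⟩
    (Sum.inl b) T0 hgood ⟨hbo, hxo, h'.symm⟩
  have hchain : (Sum.inl x :: z1 :: T1).IsChain (CG G out pt).Adj :=
    List.isChain_cons_cons.2 ⟨hz1.symm, hg1.chain⟩
  have hnd : (Sum.inl x :: z1 :: T1).Nodup := List.nodup_cons.2 ⟨hg1.avoid, hg1.nodup⟩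
  have hlast : (Sum.inl x :: z1 :: T1).getLast? = some (Sum.inl y) := by
    rw [List.getLast?_cons_cons]; exact hg1.last
  obtain ⟨q, hq, q1, q2, q3, q4⟩ := lift G out pt y (z1 :: T1).length x (z1 :: T1) le_rfl hchain hnd
    hlast (chain_out G out pt _ _ hchain (by simp))
  have hcov : ∀ v ∈ p.support, v ∈ q.support := by
    intro v hv
    by_cases hvx : v = x
    · rw [hvx]; exact q.start_mem_support
    · exact q1 v (List.mem_cons_of_mem _ (hg1.cover _ ((hSm _).2 ⟨v, rfl, (hout v).2 hv, hvx⟩)))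
  have hyx : s(y, x) ∉ q.edges := by
    intro h
    rw [Sym2.eq_swap] at h
    obtain ⟨h4, q', hq'⟩ := path_first G q hq y h
    have h5 : q' = SimpleGraph.Walk.nil := by
      have h6 := hq
      rw [hq', SimpleGraph.Walk.cons_isPath_iff] at h6
      rw [SimpleGraph.Walk.eq_nil_iff_nil]
      exact SimpleGraph.Walk.isPath_iff_nil.1 h6.1
    have h7 := hcov b ((hrs b).2 (Or.inr p2.start_mem_support))
    rw [hq', h5] at h7
    simp only [SimpleGraph.Walk.support_cons, SimpleGraph.Walk.support_nil, List.mem_cons,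
      List.not_mem_nil, or_false] at h7
    rcases h7 with h7 | h7
    · exact hbx h7
    · exact hby h7
  refine ⟨q, hq, hyx, hcov, ?_⟩
  by_contra hcon
  push Not at hcon
  have h8 : q = p.reverse := path_unique G q hq p.reverse hp.reverse
    (fun e he => (hre e).1 (hcon e he))
  have h9 : ∀ t ∈ q.support, t ∉ out := by
    intro t ht
    rw [h8, SimpleGraph.Walk.support_reverse, List.mem_reverse] at ht
    exact (hout t).2 ht
  have h10 : ∀ Q, Sum.inr Q ∉ (z1 :: T1) := by
    intro Q hQ
    obtain ⟨t, ht, ht'⟩ := q3 Q hQ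
    exact h9 t ht ht'
  have h11 := q4 h10
  rw [h8, hp2, SimpleGraph.Walk.support_cons, List.map_cons, hT0, List.cons_inj_right] at h11
  exact hne h11

/-- The extension theorem. -/
theorem extension (G : SimpleGraph V) {a : V} (c : G.Walk a a) (hc : c.IsCycle) (x y : V)
    (hxy : s(x, y) ∈ c.edges)
    (h3 : ∀ u ∈ c.support, u ≠ x → u ≠ y → Nat.card {v // G.Adj u v} = 3)
    (hodd : ∀ Q : (G.induce {v | v ∉ c.support}).ConnectedComponent,
      Odd (Nat.card {u // u ∈ c.support ∧ ∃ v ∈ Q.supp, G.Adj u v}) →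
        (∃ v ∈ Q.supp, G.Adj x v) ∨ (∃ v ∈ Q.supp, G.Adj y v)) :
    ∃ (b : V) (d : G.Walk b b), d.IsCycle ∧ (∀ v ∈ c.support, v ∈ d.support) ∧ s(x, y) ∈ d.edges ∧
      ∃ e ∈ d.edges, e ∉ c.edges := by
  obtain ⟨p, hp, hpe, hpE, hpS⟩ := open_cycle G c hc x y hxy
  have hadj : G.Adj x y := c.adj_of_mem_edges hxy
  have hout : ∀ v, v ∉ ({v | v ∉ c.support} : Set V) ↔ v ∈ c.support := by
    intro v; simp
  obtain ⟨q, hq, hqe, hqS, e, he, hep⟩ := core G {v | v ∉ c.support} x y p hp hpe
    (fun v => (hout v).trans (hpS v)) hadj.ne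
    (fun u hu => h3 u ((hpS u).2 hu))
    (by
      intro u hu
      have h1 := two_nbrs G c hc u ((hpS u).2 hu)
      have h2 : Nat.card {v // G.Adj u v ∧ v ∈ c.support} =
          Nat.card {v // G.Adj u v ∧ v ∉ ({v | v ∉ c.support} : Set V)} := by
        apply Nat.card_congr
        apply Equiv.subtypeEquivRight
        intro v
        rw [hout v]
      rw [← h2]
      exact h1)
    (by
      intro Q hQ
      have h2 : att G {v | v ∉ c.support} Q =
          Nat.card {u // u ∈ c.support ∧ ∃ v ∈ Q.supp, G.Adj u v} := by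
        unfold att
        apply Nat.card_congr
        apply Equiv.subtypeEquivRight
        intro v
        rw [hout v]
        rfl
      rw [h2] at hQ
      exact hodd Q hQ)
  refine ⟨y, SimpleGraph.Walk.cons hadj.symm q, (SimpleGraph.Walk.cons_isCycle_iff _ _).2 ⟨hq, hqe⟩,
    ?_, ?_, ?_⟩
  · intro v hv
    rw [SimpleGraph.Walk.support_cons, List.mem_cons]
    exact Or.inr (hqS v ((hpS v).1 hv))
  · rw [SimpleGraph.Walk.edges_cons, List.mem_cons]
    exact Or.inl Sym2.eq_swap
  · refine ⟨e, ?_, ?_⟩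
    · rw [SimpleGraph.Walk.edges_cons, List.mem_cons]
      exact Or.inr he
    · intro h
      rcases (hpE e).1 h with h | h
      · rw [h, Sym2.eq_swap] at he
        exact hqe he
      · exact hep h

end Pool.Agent.H164R4
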