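import Pool.Agent.H164R4.Build

set_option autoImplicit false
set_option linter.unusedSectionVars false

/-!
Lifting paths of the contracted graph to paths of the graph.
-/

namespace Pool.Agent.H164R4

open Finset

variable {V : Type} [Fintype V] [DecidableEq V]

theorem path_first (G : SimpleGraph V) {u v : V} (r : G.Walk u v) (hr : r.IsPath) (w : V)
    (hw : s(u, w) ∈ r.edges) : ∃ (h : G.Adj u w) (r' : G.Walk w v), r = SimpleGraph.Walk.cons h r' := by
  cases r with
  | nil => simp at hw
  | cons h r' =>
    rename_i b
    rw [SimpleGraph.Walk.edges_cons, List.mem_cons] at hw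
    rw [SimpleGraph.Walk.cons_isPath_iff] at hr
    rcases hw with hw | hw
    · rw [Sym2.eq_iff] at hw
      rcases hw with ⟨-, hw⟩ | ⟨hw1, hw2⟩
      · subst hw
        exact ⟨h, r', rfl⟩
      · rw [hw1] at h
        exact absurd h (G.loopless.irrefl _)
    · exact absurd (r'.fst_mem_support_of_mem_edges hw) hr.2

theorem path_unique (G : SimpleGraph V) {u v : V} (q : G.Walk u v) (hq : q.IsPath) :
    ∀ (p : G.Walk u v), p.IsPath → (∀ e ∈ q.edges, e ∈ p.edges) → q = p := by
  induction q with
  | nil =>
    intro p hp _
    rw [SimpleGraph.Walk.isPath_iff_nil] at hp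
    exact (SimpleGraph.Walk.eq_nil_iff_nil.2 hp).symm
  | cons h q' ih =>
    rename_i a b c
    intro p hp hsub
    obtain ⟨h', p', rfl⟩ := path_first G p hp b (hsub _ (by simp))
    rw [SimpleGraph.Walk.cons_isPath_iff] at hp hq
    have := ih hq.1 p' hp.1 (by
      intro e he
      have h1 := hsub e (by simp [he])
      rw [SimpleGraph.Walk.edges_cons, List.mem_cons] at h1
      rcases h1 with h1 | h1
      · rw [h1] at he
        exact absurd (q'.fst_mem_support_of_mem_edges he) hq.2
      · exact h1)
    rw [this]

theorem walk_out (G : SimpleGraph V) (out : Set V) {a b : out} (r : (G.induce out).Walk a b) :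
    ∃ r' : G.Walk a.1 b.1, r'.support = r.support.map Subtype.val := by
  induction r with
  | nil => exact ⟨SimpleGraph.Walk.nil, by simp⟩
  | cons h r ih =>
    rename_i a1 b1 c1
    obtain ⟨r', hr'⟩ := ih
    have h' : G.Adj a1.1 b1.1 := h
    refine ⟨SimpleGraph.Walk.cons h' r', ?_⟩
    rw [SimpleGraph.Walk.support_cons, SimpleGraph.Walk.support_cons, List.map_cons, hr']

theorem lift (G : SimpleGraph V) (out : Set V) (pt : (G.induce out).ConnectedComponent → V) (v : V)
    (n : ℕ) : ∀ (u : V) (l : List (V ⊕ (G.induce out).ConnectedComponent)), l.length ≤ n →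
    (Sum.inl u :: l).IsChain (CG G out pt).Adj → (Sum.inl u :: l).Nodup →
    (Sum.inl u :: l).getLast? = some (Sum.inl v) →
    (∀ t, (Sum.inl t : V ⊕ (G.induce out).ConnectedComponent) ∈ (Sum.inl u :: l : List _) → t ∉ out) →
    ∃ q : G.Walk u v, q.IsPath ∧
      (∀ t, (Sum.inl t : V ⊕ (G.induce out).ConnectedComponent) ∈ (Sum.inl u :: l : List _) →
        t ∈ q.support) ∧
      (∀ t ∈ q.support, (Sum.inl t : V ⊕ (G.induce out).ConnectedComponent) ∈ (Sum.inl u :: l : List _) ∨
        ∃ h : t ∈ out, Sum.inr ((G.induce out).connectedComponentMk ⟨t, h⟩) ∈ l) ∧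
      (∀ Q, Sum.inr Q ∈ l → ∃ t ∈ q.support, t ∈ out) ∧
      ((∀ Q, Sum.inr Q ∉ l) → (Sum.inl u :: l : List _) = q.support.map Sum.inl) := by
  induction n with
  | zero =>
    intro u l hl hc hn hlast hout
    have hl' : l = [] := List.length_eq_zero_iff.1 (Nat.le_zero.1 hl)
    subst hl'
    simp only [List.getLast?_singleton, Option.some.injEq, Sum.inl.injEq] at hlast
    subst hlast
    refine ⟨SimpleGraph.Walk.nil, SimpleGraph.Walk.IsPath.nil, ?_, ?_, ?_, ?_⟩
    · intro t ht
      simpa using ht
    · intro t ht
      left
      simpa using ht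
    · intro Q hQ
      simp at hQ
    · intro _
      simp
  | succ n ih =>
    intro u l hl hc hn hlast hout
    match l, hl, hc, hn, hlast, hout with
    | [], hl, hc, hn, hlast, hout => exact ih u [] (by simp) hc hn hlast hout
    | Sum.inl w :: l', hl, hc, hn, hlast, hout =>
      have hadj : G.Adj u w := ((List.isChain_cons_cons.1 hc).1).2.2
      obtain ⟨q, hq, q1, q2, q3, q4⟩ := ih w l' (by simp at hl; omega) (List.isChain_cons_cons.1 hc).2
        (List.nodup_cons.1 hn).2 (by rwa [List.getLast?_cons_cons] at hlast)
        (fun t ht => hout t (List.mem_cons_of_mem _ ht))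
      have hu : u ∉ q.support := by
        intro h
        rcases q2 u h with h | ⟨h, -⟩
        · exact (List.nodup_cons.1 hn).1 h
        · exact hout u (by simp) h
      refine ⟨SimpleGraph.Walk.cons hadj q, (SimpleGraph.Walk.cons_isPath_iff _ _).2 ⟨hq, hu⟩,
        ?_, ?_, ?_, ?_⟩
      · intro t ht
        rw [SimpleGraph.Walk.support_cons, List.mem_cons]
        rcases List.mem_cons.1 ht with ht | ht
        · left; simpa using ht
        · right; exact q1 t ht
      · intro t ht
        rw [SimpleGraph.Walk.support_cons, List.mem_cons] at ht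
        rcases ht with ht | ht
        · left; simp [ht]
        · rcases q2 t ht with h | ⟨h, h'⟩
          · left; exact List.mem_cons_of_mem _ h
          · right; exact ⟨h, List.mem_cons_of_mem _ h'⟩
      · intro Q hQ
        have hQ' : Sum.inr Q ∈ l' := by simpa using hQ
        obtain ⟨t, ht, ht'⟩ := q3 Q hQ'
        exact ⟨t, by simp [ht], ht'⟩
      · intro h
        have := q4 (fun Q hQ => h Q (List.mem_cons_of_mem _ hQ))
        rw [SimpleGraph.Walk.support_cons, List.map_cons, this]
    | [Sum.inr Q], hl, hc, hn, hlast, hout =>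
      simp at hlast
    | Sum.inr Q :: Sum.inr Q' :: l', hl, hc, hn, hlast, hout =>
      exact absurd (List.isChain_cons_cons.1 (List.isChain_cons_cons.1 hc).2).1 (fun h => h)
    | Sum.inr Q :: Sum.inl w :: l', hl, hc, hn, hlast, hout =>
      have hc1 := List.isChain_cons_cons.1 hc
      have hc2 := List.isChain_cons_cons.1 hc1.2
      obtain ⟨v1, hv1, ha1⟩ := hc1.1.2.1
      obtain ⟨v2, hv2, ha2⟩ := hc2.1.2.1
      have hn1 := List.nodup_cons.1 hn
      have hn2 := List.nodup_cons.1 hn1.2
      obtain ⟨q, hq, q1, q2, q3, q4⟩ := ih w l' (by simp at hl; omega) hc2.2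
        hn2.2 (by rwa [List.getLast?_cons_cons, List.getLast?_cons_cons] at hlast)
        (fun t ht => hout t (List.mem_cons_of_mem _ (List.mem_cons_of_mem _ ht)))
      have hreach : (G.induce out).Reachable v1 v2 := by
        apply SimpleGraph.ConnectedComponent.exact
        exact hv1.trans hv2.symm
      obtain ⟨r0⟩ := hreach
      set r : (G.induce out).Walk v1 v2 := (r0.toPath : (G.induce out).Walk v1 v2) with hr
      have hrp : r.IsPath := r0.toPath.2
      obtain ⟨r', hr'⟩ := walk_out G out r
      have hrp' : r'.IsPath := by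
        rw [SimpleGraph.Walk.isPath_def, hr']
        exact List.Nodup.map Subtype.val_injective hrp.support_nodup
      have hrsup : ∀ t ∈ r'.support, ∃ h : t ∈ out, (G.induce out).connectedComponentMk ⟨t, h⟩ = Q := by
        intro t ht
        rw [hr', List.mem_map] at ht
        obtain ⟨t', ht', rfl⟩ := ht
        refine ⟨t'.2, ?_⟩
        have h1 : (G.induce out).Reachable t' v1 := (r.takeUntil t' ht').reachable.symm
        have h2 := SimpleGraph.ConnectedComponent.sound h1
        exact h2.trans hv1
      have hu : u ∉ out := hout u (by simp)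
      have huq : u ∉ q.support := by
        intro h
        rcases q2 u h with h | ⟨h, -⟩
        · exact hn1.1 (List.mem_cons_of_mem _ h)
        · exact hu h
      have hur : u ∉ r'.support := fun h => hu (hrsup u h).1
      have hdis : ∀ t ∈ r'.support, t ∉ q.support := by
        intro t ht ht'
        obtain ⟨h1, h2⟩ := hrsup t ht
        rcases q2 t ht' with h | ⟨h, h'⟩
        · exact hout t (List.mem_cons_of_mem _ (List.mem_cons_of_mem _ h)) h1
        · rw [h2] at h'
          exact hn2.1 (List.mem_cons_of_mem _ h')
      have hsup : (SimpleGraph.Walk.cons ha1 (r'.append (SimpleGraph.Walk.cons ha2.symm q))).support =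
          u :: (r'.support ++ q.support) := by
        rw [SimpleGraph.Walk.support_cons, SimpleGraph.Walk.support_append]
        simp
      refine ⟨SimpleGraph.Walk.cons ha1 (r'.append (SimpleGraph.Walk.cons ha2.symm q)), ?_,
        ?_, ?_, ?_, ?_⟩
      · rw [SimpleGraph.Walk.isPath_def, hsup, List.nodup_cons, List.nodup_append]
        refine ⟨?_, hrp'.support_nodup, hq.support_nodup, ?_⟩
        · rw [List.mem_append]
          rintro (h | h)
          · exact hur h
          · exact huq h
        · intro a ha b hb hab
          exact hdis a ha (hab ▸ hb)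
      · intro t ht
        rw [hsup, List.mem_cons, List.mem_append]
        rcases List.mem_cons.1 ht with ht | ht
        · left; simpa using ht
        · right; right
          apply q1
          rcases List.mem_cons.1 ht with ht | ht
          · exact absurd ht (by simp)
          · exact ht
      · intro t ht
        rw [hsup, List.mem_cons, List.mem_append] at ht
        rcases ht with ht | ht | ht
        · left; simp [ht]
        · right
          obtain ⟨h1, h2⟩ := hrsup t ht
          exact ⟨h1, by rw [h2]; simp⟩
        · rcases q2 t ht with h | ⟨h, h'⟩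
          · left; exact List.mem_cons_of_mem _ (List.mem_cons_of_mem _ h)
          · right; exact ⟨h, List.mem_cons_of_mem _ (List.mem_cons_of_mem _ h')⟩
      · intro Q' _
        refine ⟨v1.1, ?_, v1.2⟩
        rw [hsup, List.mem_cons, List.mem_append]
        right; left
        exact r'.start_mem_support
      · intro h
        exact absurd (by simp) (h Q)

theorem chain_out (G : SimpleGraph V) (out : Set V) (pt : (G.induce out).ConnectedComponent → V)
    (L : List (V ⊕ (G.induce out).ConnectedComponent)) :
    ∀ a, (a :: L).IsChain (CG G out pt).Adj → L ≠ [] → ∀ t, Sum.inl t ∈ a :: L → t ∉ out := by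
  have hone : ∀ a b, (CG G out pt).Adj a b → ∀ t, a = Sum.inl t → t ∉ out := by
    rintro (a | Q) (b | Q') h t ht
    · rw [← Sum.inl.inj ht]; exact h.1
    · rw [← Sum.inl.inj ht]; exact h.1
    · exact absurd ht (by simp)
    · exact absurd ht (by simp)
  induction L with
  | nil => intro a _ h; exact absurd rfl h
  | cons b L ih =>
    intro a hc _ t ht
    have h1 := List.isChain_cons_cons.1 hc
    rcases List.mem_cons.1 ht with ht | ht
    · exact hone a b h1.1 t ht.symm
    · by_cases hL : L = []
      · subst hL
        simp only [List.mem_singleton] at ht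
        exact hone b a h1.1.symm t ht.symm
      · exact ih b h1.2 hL t ht

theorem chain_support (G : SimpleGraph V) (out : Set V)
    (pt : (G.induce out).ConnectedComponent → V) {u v : V} (p : G.Walk u v)
    (hp : ∀ t ∈ p.support, t ∉ out) :
    (p.support.map (Sum.inl : V → V ⊕ (G.induce out).ConnectedComponent)).IsChain
      (CG G out pt).Adj ∧
    (p.support.map (Sum.inl : V → V ⊕ (G.induce out).ConnectedComponent)).getLast? =
      some (Sum.inl v) := by
  induction p with
  | nil => simp
  | cons h p ih =>
    obtain ⟨h1, h2⟩ := ih (fun t ht => hp t (by simp [ht]))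
    cases p with
    | nil =>
      simp only [SimpleGraph.Walk.support_cons, SimpleGraph.Walk.support_nil, List.map_cons,
        List.map_nil] at h1 h2 ⊢
      refine ⟨?_, by simp⟩
      rw [List.isChain_cons_cons]
      exact ⟨⟨hp _ (by simp), hp _ (by simp), h⟩, h1⟩
    | cons h' p' =>
      simp only [SimpleGraph.Walk.support_cons, List.map_cons] at h1 h2 ⊢
      refine ⟨?_, ?_⟩
      · rw [List.isChain_cons_cons]
        exact ⟨⟨hp _ (by simp), hp _ (by simp), h⟩, h1⟩
      · rw [List.getLast?_cons_cons]
        exact h2

end Pool.Agent.H164R4
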