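import Mathlib

set_option autoImplicit false
set_option linter.unusedSectionVars false

/-!
Lollipop parity (Thomason type) with optional vertices of even degree.
-/

namespace Pool.Agent.H164R4

open Finset

variable {W : Type} [DecidableEq W]

/-- rotation of the list at w -/
def rot (l : List W) (w : W) : List W :=
  (l.take (l.idxOf w)).reverse ++ l.drop (l.idxOf w)

theorem rot_eq (B A : List W) (w : W) (h : w ∉ B) : rot (B ++ w :: A) w = B.reverse ++ w :: A := by
  unfold rot
  have h1 : (B ++ w :: A).idxOf w = B.length := by
    rw [List.idxOf_append_of_notMem h]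
    simp
  rw [h1, List.take_left', List.drop_left']
  · rfl
  · rfl

/-- the involution -/
def tau : List W × W → List W × W
  | ([], w) => ([], w)
  | (z :: T, w) =>
    if w ∈ T then (if T.head? = some w then (T, z) else (rot (z :: T) w, w)) else (w :: z :: T, z)

/-- Admissible lists: they end in y, avoid x, cover S and are paths of the graph. -/
structure Good (Γ : SimpleGraph W) (x y : W) (S : Finset W) (l : List W) : Prop where
  nodup : l.Nodup
  chain : l.IsChain Γ.Adj
  last : l.getLast? = some y
  avoid : x ∉ l
  cover : ∀ s ∈ S, s ∈ l

/-- admissible moves -/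
def Mv (Γ : SimpleGraph W) (x : W) (S : Finset W) : List W → W → Prop
  | [], _ => False
  | z :: T, w => Γ.Adj z w ∧ w ≠ x ∧ ¬ (T.head? = some w ∧ z ∈ S)

theorem split_mem (T : List W) (w : W) (h : w ∈ T) : ∃ B A, T = B ++ w :: A ∧ w ∉ B := by
  induction T with
  | nil => simp at h
  | cons a T ih =>
    by_cases h1 : w = a
    · exact ⟨[], T, by simp [h1], by simp⟩
    · have h2 : w ∈ T := by
        rcases List.mem_cons.1 h with h | h
        · exact absurd h h1
        · exact h
      obtain ⟨B, A, h3, h4⟩ := ih h2
      exact ⟨a :: B, A, by simp [h3], by simp [h1, h4]⟩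

theorem chain_rev (Γ : SimpleGraph W) (B A : List W) (z w : W)
    (h : (z :: B ++ w :: A).IsChain Γ.Adj) (hz : Γ.Adj z w) :
    ((z :: B).reverse ++ w :: A).IsChain Γ.Adj := by
  rw [List.isChain_append] at h ⊢
  refine ⟨?_, h.2.1, ?_⟩
  · rw [List.isChain_reverse]
    exact h.1.imp (fun a b hab => hab.symm)
  · intro a ha b hb
    simp only [List.getLast?_reverse, List.head?_cons, Option.mem_def, Option.some.injEq] at ha hb
    subst ha; subst hb
    exact hz

/-- the case analysis of a move -/
theorem mv_cases (Γ : SimpleGraph W) (x y : W) (S : Finset W) (l : List W) (w : W)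
    (hl : Good Γ x y S l) (hw : Mv Γ x S l w) :
    Good Γ x y S (tau (l, w)).1 ∧ Mv Γ x S (tau (l, w)).1 (tau (l, w)).2 ∧
      tau (tau (l, w)) = (l, w) ∧ tau (l, w) ≠ (l, w) := by
  cases l with
  | nil => exact absurd hw (by simp [Mv])
  | cons z T =>
    obtain ⟨hadj, hwx, hns⟩ := hw
    have hzw : w ≠ z := fun h => hadj.ne h.symm
    have hzx : z ≠ x := fun h => hl.avoid (by simp [h])
    have hzT : z ∉ T := (List.nodup_cons.1 hl.nodup).1
    by_cases hwT : w ∈ T
    · by_cases hh : T.head? = some w
      · -- shrink
        have ht : tau (z :: T, w) = (T, z) := by simp [tau, hwT, hh]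
        rw [ht]
        cases T with
        | nil => simp at hh
        | cons w' T' =>
          simp only [List.head?_cons, Option.some.injEq] at hh
          subst hh
          have hzS : z ∉ S := fun h => hns ⟨by simp, h⟩
          refine ⟨⟨?_, ?_, ?_, ?_, ?_⟩, ?_, ?_, ?_⟩
          · exact (List.nodup_cons.1 hl.nodup).2
          · exact (List.isChain_cons_cons.1 hl.chain).2
          · have := hl.last
            rwa [List.getLast?_cons_cons] at this
          · exact fun h => hl.avoid (List.mem_cons_of_mem _ h)
          · intro s hs
            rcases List.mem_cons.1 (hl.cover s hs) with h | h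
            · exact absurd (h ▸ hs) hzS
            · exact h
          · refine ⟨hadj.symm, hzx, ?_⟩
            rintro ⟨h1, -⟩
            apply hzT
            cases T' with
            | nil => simp at h1
            | cons b T'' =>
              simp only [List.head?_cons, Option.some.injEq] at h1
              simp [h1]
          · have h1 : z ∉ T' := fun h => hzT (List.mem_cons_of_mem _ h)
            simp [tau, h1]
          · intro h
            have h1 := congrArg (fun p => p.1.length) h
            simp at h1
      · -- rotation
        have ht : tau (z :: T, w) = (rot (z :: T) w, w) := by simp [tau, hwT, hh]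
        obtain ⟨B, A, hT, hwB⟩ := split_mem T w hwT
        have hB : B ≠ [] := by
          rintro rfl
          apply hh
          rw [hT]; simp
        have hwzB : w ∉ z :: B := by simp [hzw, hwB]
        have hl1 : z :: T = (z :: B) ++ w :: A := by rw [hT]; simp
        have hr : rot (z :: T) w = (z :: B).reverse ++ w :: A := by
          rw [hl1]; exact rot_eq _ _ _ hwzB
        rw [ht, hr]
        -- last element of B
        obtain ⟨B0, z', hB0⟩ : ∃ B0 z', B = B0 ++ [z'] := by
          refine ⟨B.dropLast, B.getLast hB, ?_⟩
          exact (List.dropLast_append_getLast hB).symm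
        have hrev : (z :: B).reverse ++ w :: A = z' :: (B0.reverse ++ z :: w :: A) := by
          rw [hB0]; simp
        have hchain := hl.chain
        rw [hl1] at hchain
        have hnd := hl.nodup
        rw [hl1] at hnd
        have hperm : ((z :: B).reverse ++ w :: A).Perm (z :: B ++ w :: A) :=
          (List.reverse_perm _).append_right _
        have hadj' : Γ.Adj z' w := by
          rw [List.isChain_append] at hchain
          apply hchain.2.2 z' _ w _
          · rw [hB0]
            have h8 : ((z :: B0) ++ [z']).getLast? = some z' := List.getLast?_concat
            exact h8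
          · simp
        have hgood : Good Γ x y S ((z :: B).reverse ++ w :: A) := by
          refine ⟨?_, ?_, ?_, ?_, ?_⟩
          · exact hperm.nodup_iff.2 hnd
          · exact chain_rev Γ B A z w hchain hadj
          · have h1 := hl.last
            rw [hl1] at h1
            rw [List.getLast?_append] at h1 ⊢
            rw [List.getLast?_cons] at h1 ⊢
            simpa using h1
          · intro h
            apply hl.avoid
            rw [hl1]
            exact hperm.mem_iff.1 h
          · intro s hs
            apply hperm.mem_iff.2
            rw [← hl1]
            exact hl.cover s hs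
        refine ⟨hgood, ?_, ?_, ?_⟩
        · rw [hrev]
          refine ⟨hadj', hwx, ?_⟩
          rintro ⟨h1, -⟩
          have h2 : w ∈ z :: B := by
            rw [hB0]
            cases hb : B0.reverse with
            | nil =>
              rw [hb] at h1
              simp only [List.nil_append, List.head?_cons, Option.some.injEq] at h1
              simp [h1]
            | cons b B1 =>
              rw [hb] at h1
              simp only [List.cons_append, List.head?_cons, Option.some.injEq] at h1
              have h3 : b ∈ B0.reverse := by rw [hb]; simp
              have h4 : b ∈ B0 := List.mem_reverse.1 h3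
              rw [← h1]
              simp [h4]
          exact hwzB h2
        · have h5 : w ∈ B0.reverse ++ z :: w :: A := by simp
          have h6 : (B0.reverse ++ z :: w :: A).head? ≠ some w := by
            intro h1
            have h2 : w ∈ z :: B := by
              rw [hB0]
              cases hb : B0.reverse with
              | nil =>
                rw [hb] at h1
                simp only [List.nil_append, List.head?_cons, Option.some.injEq] at h1
                simp [h1]
              | cons b B1 =>
                rw [hb] at h1
                simp only [List.cons_append, List.head?_cons, Option.some.injEq] at h1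
                have h3 : b ∈ B0.reverse := by rw [hb]; simp
                have h4 : b ∈ B0 := List.mem_reverse.1 h3
                rw [← h1]
                simp [h4]
            exact hwzB h2
          have h7 : tau ((z :: B).reverse ++ w :: A, w) = (rot ((z :: B).reverse ++ w :: A) w, w) := by
            rw [hrev]
            simp only [tau]
            rw [if_pos h5, if_neg h6]
          rw [h7, rot_eq _ _ _ (by rw [List.mem_reverse]; exact hwzB), List.reverse_reverse, hl1]
        · intro h
          have h1 := congrArg (fun p => p.1) h
          simp only at h1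
          rw [hrev] at h1
          have h2 : z' = z := by
            have := congrArg List.head? h1
            simpa using this
          have h3 : z ∈ T := by
            rw [hT, hB0, ← h2]; simp
          exact hzT h3
    · -- extension
      have ht : tau (z :: T, w) = (w :: z :: T, z) := by simp [tau, hwT]
      rw [ht]
      refine ⟨⟨?_, ?_, ?_, ?_, ?_⟩, ?_, ?_, ?_⟩
      · exact List.nodup_cons.2 ⟨by simp [hzw, hwT], hl.nodup⟩
      · exact List.isChain_cons_cons.2 ⟨hadj.symm, hl.chain⟩
      · rw [List.getLast?_cons_cons]; exact hl.last
      · intro h
        rcases List.mem_cons.1 h with h | h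
        · exact hwx h.symm
        · exact hl.avoid h
      · intro s hs
        exact List.mem_cons_of_mem _ (hl.cover s hs)
      · refine ⟨hadj.symm, hzx, ?_⟩
        rintro ⟨-, hwS⟩
        have := hl.cover w hwS
        rcases List.mem_cons.1 this with h | h
        · exact hzw h
        · exact hwT h
      · simp [tau]
      · intro h
        have h1 := congrArg (fun p => p.1.length) h
        simp at h1

section count

variable [Fintype W]

theorem good_finite (Γ : SimpleGraph W) (x y : W) (S : Finset W) :
    {l : List W | Good Γ x y S l}.Finite := by
  apply Set.Finite.subset (List.finite_length_le W (Fintype.card W))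
  intro l hl
  exact hl.nodup.length_le_card

/-- one list: the number of moves mod 2 -/
theorem count_one (Γ : SimpleGraph W) (x y : W) (S : Finset W)
    (hodd : ∀ v ∈ S, v ≠ y → Odd (Nat.card {w // Γ.Adj v w}))
    (heven : ∀ v, v ∉ S → v ≠ x → v ≠ y → Even (Nat.card {w // Γ.Adj v w}))
    (hS : ∃ s ∈ S, s ≠ y) (l : List W) (hl : Good Γ x y S l) :
    ((Nat.card {w // Mv Γ x S l w} : ℕ) : ZMod 2) =
      @ite _ (∃ z T, l = z :: T ∧ Γ.Adj z x) (Classical.dec _) 1 0 := by
  classical
  cases l with
  | nil =>
    exfalso
    have := hl.last
    simp at this
  | cons z T =>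
    cases T with
    | nil =>
      exfalso
      obtain ⟨s, hs, hsy⟩ := hS
      have h1 := hl.cover s hs
      have h2 := hl.last
      simp only [List.getLast?_singleton, Option.some.injEq] at h2
      simp only [List.mem_singleton] at h1
      exact hsy (h1.trans h2)
    | cons w0 T =>
      have hzx : z ≠ x := fun h => hl.avoid (by simp [h])
      have hzw0 : Γ.Adj z w0 := (List.isChain_cons_cons.1 hl.chain).1
      have hw0x : w0 ≠ x := fun h => hl.avoid (by simp [h])
      have hzy : z ≠ y := by
        intro h
        have h1 := hl.last
        rw [List.getLast?_cons_cons] at h1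
        have h2 : y ∈ w0 :: T := List.mem_of_getLast? h1
        rw [← h] at h2
        exact (List.nodup_cons.1 hl.nodup).1 h2
      -- finset form
      have hN : Nat.card {w // Γ.Adj z w} = (univ.filter (fun w => Γ.Adj z w)).card := by
        rw [Nat.card_eq_fintype_card, Fintype.card_subtype]
      have hM : Nat.card {w // Mv Γ x S (z :: w0 :: T) w} =
          (univ.filter (fun w => Mv Γ x S (z :: w0 :: T) w)).card := by
        rw [Nat.card_eq_fintype_card, Fintype.card_subtype]
      have hsplit : (univ.filter (fun w => Γ.Adj z w)).card =
          (univ.filter (fun w => Mv Γ x S (z :: w0 :: T) w)).card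
            + (if Γ.Adj z x then 1 else 0) + (if z ∈ S then 1 else 0) := by
        have h1 : univ.filter (fun w => Γ.Adj z w) =
            (univ.filter (fun w => Mv Γ x S (z :: w0 :: T) w) ∪
              (if Γ.Adj z x then {x} else ∅)) ∪ (if z ∈ S then {w0} else ∅) := by
          ext w
          simp only [mem_filter, mem_univ, true_and, mem_union, Mv, List.head?_cons,
            Option.some.injEq]
          constructor
          · intro h
            by_cases h2 : w = x
            · left; right
              rw [← h2, if_pos h]; simp
            · by_cases h3 : w0 = w ∧ z ∈ S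
              · right
                rw [if_pos h3.2]; simp [h3.1]
              · left; left
                exact ⟨h, h2, h3⟩
          · rintro ((h | h) | h)
            · exact h.1
            · split_ifs at h with h4
              · rw [mem_singleton] at h; rw [h]; exact h4
              · simp at h
            · split_ifs at h with h4
              · rw [mem_singleton] at h; rw [h]; exact hzw0
              · simp at h
        rw [h1, card_union_of_disjoint, card_union_of_disjoint]
        · split_ifs <;> simp
        · rw [disjoint_left]
          intro w hw hw'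
          split_ifs at hw' with h4
          · rw [mem_singleton] at hw'
            rw [mem_filter] at hw
            exact hw.2.2.1 hw'
          · simp at hw'
        · rw [disjoint_left]
          intro w hw hw'
          split_ifs at hw' with h4
          · rw [mem_singleton] at hw'
            rw [mem_union] at hw
            rcases hw with hw | hw
            · rw [mem_filter] at hw
              apply hw.2.2.2
              rw [hw']
              exact ⟨by simp, h4⟩
            · split_ifs at hw with h5
              · rw [mem_singleton] at hw
                exact hw0x (hw'.symm.trans hw)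
              · simp at hw
          · simp at hw'
      have hdeg : ((Nat.card {w // Γ.Adj z w} : ℕ) : ZMod 2) = if z ∈ S then 1 else 0 := by
        split_ifs with h
        · exact (ZMod.natCast_eq_one_iff_odd).2 (hodd z h hzy)
        · exact (ZMod.natCast_eq_zero_iff_even).2 (heven z h hzx hzy)
      have hcond : (∃ z' T', z :: w0 :: T = z' :: T' ∧ Γ.Adj z' x) ↔ Γ.Adj z x := by
        constructor
        · rintro ⟨z', T', h1, h2⟩
          simp only [List.cons.injEq] at h1
          rw [h1.1]; exact h2
        · intro h
          exact ⟨z, _, rfl, h⟩
      rw [hM]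
      rw [hN, hsplit] at hdeg
      push_cast at hdeg
      by_cases h1 : Γ.Adj z x
      · rw [if_pos (hcond.2 h1)]
        by_cases h2 : z ∈ S
        · simp only [h1, h2, if_true, Nat.cast_one] at hdeg
          have h3 : ∀ a : ZMod 2, a + 1 + 1 = 1 → a = 1 := by decide
          exact h3 _ hdeg
        · simp only [h1, h2, if_true, if_false, Nat.cast_one, Nat.cast_zero] at hdeg
          have h3 : ∀ a : ZMod 2, a + 1 + 0 = 0 → a = 1 := by decide
          exact h3 _ hdeg
      · rw [if_neg (fun h => h1 (hcond.1 h))]
        by_cases h2 : z ∈ S
        · simp only [h1, h2, if_true, if_false, Nat.cast_one, Nat.cast_zero] at hdeg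
          have h3 : ∀ a : ZMod 2, a + 0 + 1 = 1 → a = 0 := by decide
          exact h3 _ hdeg
        · simp only [h1, h2, if_false, Nat.cast_zero] at hdeg
          have h3 : ∀ a : ZMod 2, a + 0 + 0 = 0 → a = 0 := by decide
          exact h3 _ hdeg

/-- Lollipop parity: a second closing path. -/
theorem second (Γ : SimpleGraph W) (x y : W) (S : Finset W)
    (hodd : ∀ v ∈ S, v ≠ y → Odd (Nat.card {w // Γ.Adj v w}))
    (heven : ∀ v, v ∉ S → v ≠ x → v ≠ y → Even (Nat.card {w // Γ.Adj v w}))
    (hS : ∃ s ∈ S, s ≠ y) (z0 : W) (T0 : List W) (h0 : Good Γ x y S (z0 :: T0))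
    (h0x : Γ.Adj z0 x) :
    ∃ z1 T1, Good Γ x y S (z1 :: T1) ∧ Γ.Adj z1 x ∧ z1 :: T1 ≠ z0 :: T0 := by
  classical
  set G : Finset (List W) := (good_finite Γ x y S).toFinset with hG
  have hGm : ∀ l, l ∈ G ↔ Good Γ x y S l := by
    intro l; rw [hG, Set.Finite.mem_toFinset]; rfl
  -- total number of moves is even
  have htot : ∑ p ∈ (G ×ˢ (univ : Finset W)).filter (fun p => Mv Γ x S p.1 p.2), (1 : ZMod 2) = 0 := by
    apply Finset.sum_involution (fun p _ => tau p)
    · intro p hp
      decide
    · intro p hp _
      rw [mem_filter, mem_product, hGm] at hp
      exact (mv_cases Γ x y S p.1 p.2 hp.1.1 hp.2).2.2.2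
    · intro p hp
      rw [mem_filter, mem_product, hGm] at hp
      exact (mv_cases Γ x y S p.1 p.2 hp.1.1 hp.2).2.2.1
    · intro p hp
      rw [mem_filter, mem_product, hGm] at hp
      have h := mv_cases Γ x y S p.1 p.2 hp.1.1 hp.2
      rw [mem_filter, mem_product, hGm]
      exact ⟨⟨h.1, mem_univ _⟩, h.2.1⟩
  rw [sum_filter, sum_product] at htot
  have hsum : ∑ l ∈ G, (if (∃ z T, l = z :: T ∧ Γ.Adj z x) then (1 : ZMod 2) else 0) = 0 := by
    refine Eq.trans (sum_congr rfl ?_) htot
    intro l hl
    have h1 := count_one Γ x y S hodd heven hS l ((hGm l).1 hl)
    have h2 : (∑ w, if Mv Γ x S (l, w).1 (l, w).2 then (1 : ZMod 2) else 0) =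
        ((Nat.card {w // Mv Γ x S l w} : ℕ) : ZMod 2) := by
      rw [Nat.card_eq_fintype_card, Fintype.card_subtype, ← sum_filter]
      simp
    rw [h2, h1]
    congr
  by_contra hcon
  push Not at hcon
  have h1 : ∑ l ∈ G, (if (∃ z T, l = z :: T ∧ Γ.Adj z x) then (1 : ZMod 2) else 0) = 1 := by
    rw [sum_eq_single (z0 :: T0)]
    · rw [if_pos ⟨z0, T0, rfl, h0x⟩]
    · intro l hl hne
      rw [if_neg]
      rintro ⟨z, T, rfl, hz⟩
      exact hne (hcon z T ((hGm _).1 hl) hz)
    · intro h
      exact absurd ((hGm _).2 h0) h
  rw [h1] at hsum
  exact absurd hsum (by decide)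

end count

end Pool.Agent.H164R4
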